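import Mathlib
import Pool.Agent.X21.Dag.D5

set_option autoImplicit false

open MvPolynomial Pool.Agent.X21.Dag

/-- `ψ_G` is defined: if there is a trek between `i < j`, there is a unique shortest one. -/
def Pool.Agent.Results.MP_3f84da_ag.ToricIffShortestTrek.PsiDefined {n : ℕ}
    (E : Fin n → Fin n → Prop) : Prop :=
  ∀ i j : Fin n, i < j → (treks E i j).Nonempty →
    ∃! P : Fin n × List (Fin n) × List (Fin n),
      P ∈ treks E i j ∧ ∀ Q ∈ treks E i j, len P ≤ len Q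

/-- the kernel of a homomorphism sending each variable to a monomial or to `0` -/
def Pool.Agent.Results.MP_3f84da_ag.ToricIffShortestTrek.IsToric {n : ℕ}
    (I : Ideal (MvPolynomial (Sym2 (Fin n)) ℂ)) : Prop :=
  ∃ (ι : Type) (θ : MvPolynomial (Sym2 (Fin n)) ℂ →ₐ[ℂ] MvPolynomial ι ℂ),
    (∀ s, θ (X s) = 0 ∨ ∃ m, θ (X s) = monomial m 1) ∧ RingHom.ker θ = I

/-- the same for any monoid algebra, with any coefficients -/
def Pool.Agent.Results.MP_3f84da_ag.ToricIffShortestTrek.IsToricGen {n : ℕ}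
    (I : Ideal (MvPolynomial (Sym2 (Fin n)) ℂ)) : Prop :=
  ∃ (M : Type) (_ : AddCommMonoid M)
    (θ : MvPolynomial (Sym2 (Fin n)) ℂ →ₐ[ℂ] AddMonoidAlgebra ℂ M),
    (∀ s, ∃ m c, θ (X s) = AddMonoidAlgebra.single m c) ∧ RingHom.ker θ = I

open Pool.Agent.Results.MP_3f84da_ag.ToricIffShortestTrek

theorem Pool.Agent.Results.MP_3f84da_ag.ToricIffShortestTrek.result (n : ℕ)
    (E : Fin n → Fin n → Prop) (hE : ∀ i j, E i j → i < j) :
    List.TFAE [IsToric (RingHom.ker (phi E)), IsToricGen (RingHom.ker (phi E)),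
      PsiDefined E ∧ RingHom.ker (phi E) = RingHom.ker (psi E)] := by
  tfae_have 1 → 2 := by
    rintro ⟨ι, θ, h1, h2⟩
    refine ⟨ι →₀ ℕ, inferInstance, θ, fun s => ?_, h2⟩
    rcases h1 s with h | ⟨m, h⟩
    · refine ⟨0, 0, ?_⟩
      rw [h, AddMonoidAlgebra.single_zero]
    · exact ⟨m, 1, h⟩
  tfae_have 2 → 3 := by
    rintro ⟨M, hM, θ, h1, h2⟩
    have h3 : ∀ g, θ g = 0 ↔ phi E g = 0 := by
      intro g
      rw [← RingHom.mem_ker, ← RingHom.mem_ker, h2]
    have h4 : ∀ s, IsMon (θ (X s)) := by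
      intro s
      obtain ⟨m, c, h⟩ := h1 s
      by_cases hc : c = 0
      · left
        rw [h, hc, AddMonoidAlgebra.single_zero]
      · right
        exact ⟨m, c, hc, h⟩
    obtain ⟨h5, h6⟩ := main hE θ h4 h3
    refine ⟨fun i j _ hT => ?_, h6⟩
    obtain ⟨P, hP1, hP2, hP3⟩ := h5 i j hT
    exact ⟨P, ⟨hP1, hP2⟩, fun Q hQ => hP3 Q hQ.1 hQ.2⟩
  tfae_have 3 → 1 := by
    rintro ⟨-, h⟩
    refine ⟨_, psi E, fun s => ?_, h.symm⟩
    rw [psi, aeval_X, shortVal]
    split_ifs with h1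
    · right
      exact ⟨_, trekMon_eq _⟩
    · left
      rfl
  tfae_finish
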